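import Pool.Agent.H69.Conf2

namespace Pool.Agent.Results.MP_6b630c_al.Chain
open Pool.Agent.H69.Hyp

/-- A family of generating sets `X μ` of `ℤ ≀ ℤ`, `μ ∈ (1, ∞)`, all hyperbolic and
quasi-parabolic, forming a strict chain ordered like the reals. -/
theorem result : ∃ X : Set.Ioi (1 : ℝ) → GenSet WrZ,
    (∀ μ, IsHyp (Cay (X μ)) ∧ QuasiParabolic WrZ (Cay.one (X μ))) ∧
    ∀ μ ν, μ < ν → Dom (X ν) (X μ) ∧ ¬ Dom (X μ) (X ν) := wr_main

end Pool.Agent.Results.MP_6b630c_al.Chain
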